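import Pool.Agent.W648.UN.Stm2

/-!
# UN-JV : the Abel composed formula
-/

set_option autoImplicit false

open MeasureTheory Set Filter Topology
open scoped ContDiff

noncomputable section

namespace Pool.Agent.W396.UN.JV

open Pool.Agent.W648.UN

theorem NB.mono {A : Type} [NormedCommRing A] {H : ℝ → A} {η η' : ℝ} (h : NB H η)
    (hη : η ≤ η') : NB H η' := ⟨h.1, h.2.1, h.2.2.trans hη⟩

theorem NB.neg {A : Type} [NormedCommRing A] {H : ℝ → A} {η : ℝ} (h : NB H η) :
    NB (fun s => - H s) η := by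
  refine ⟨h.1.neg, ?_, ?_⟩
  · simpa only [norm_neg] using h.2.1
  · simpa only [norm_neg] using h.2.2

theorem ofReal_mem_Om {b : ℝ} (hb : 0 ≤ b) : (b : ℂ) ∈ Om := by
  simp [Om, hb]

theorem lam_bound (hB : S_BD) {h : ℝ → ℝ} (hh : okh h) (hC : S_CTS) (s : ℝ) {b : ℝ}
    (hb : 0 ≤ b) : ‖lam (HH h s) (b : ℂ)‖ ≤ 16 := by
  have h1 := NB.mono ((hC h hh).1 s) (by norm_num : (1 / 50 : ℝ) ≤ 1 / 20)
  have h2 := hB ℂ (HH h s) b h1 (ofReal_mem_Om hb)
  have h3 := hB ℂ (fun x => - HH h s x) b (NB.neg h1) (ofReal_mem_Om hb)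
  unfold lam
  refine (norm_sub_le _ _).trans ?_
  linarith [h2.1, h3.1]

theorem TT_neg (hT : S_TR) (hcg : S_CONGR) (hC : S_CTS) {h : ℝ → ℝ} (hh : okh h) {r : ℝ}
    (hr : r ≤ 0) : TT (HH h r) = (Real.pi : ℂ) := by
  have h0 := hT h hh 0 le_rfl
  rw [intervalIntegral.integral_same, add_zero] at h0
  rw [← h0]
  have h1 := NB.mono ((hC h hh).1 r) (by norm_num : (1 / 50 : ℝ) ≤ 1 / 20)
  have hz : ∀ r' ≤ (0:ℝ), ∀ x ∈ Ioo (0 : ℝ) 1, HH h r' x = 0 := by
    intro r' hr' x hx
    unfold HH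
    rw [hh.2.1 _ (by linarith [Real.log_nonpos hx.1.le hx.2.le]), Complex.ofReal_zero]
  have e1 : ∀ x ∈ Ioo (0 : ℝ) 1, HH h r x = HH h 0 x := by
    intro x hx; rw [hz r hr x hx, hz 0 le_rfl x hx]
  have e2 : ∀ x ∈ Ioo (0 : ℝ) 1, (fun s => - HH h r s) x = (fun s => - HH h 0 s) x := by
    intro x hx; simp only [e1 x hx]
  have h0' : (0 : ℂ) ∈ Om := by simp [Om]
  unfold TT
  rw [(hcg ℂ _ _ 0 h1 h0' e1).2, (hcg ℂ _ _ 0 (NB.neg h1) h0' e2).2]

/-- the substitution -/
theorem subst (H : ℝ → ℂ) {u : ℝ} (hu : 0 < u) :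
    ∫ η in Ioo (0:ℝ) u, ((ak η * Real.sqrt (Real.exp (2 * (u - η)) - 1) : ℝ) : ℂ) *
      lam H ((Real.exp (2 * (u - η)) - 1 : ℝ) : ℂ) = VV H u := by
  obtain ⟨y, hy⟩ : ∃ y : ℝ, y = Real.exp (2 * u) - 1 := ⟨_, rfl⟩
  have hy0 : 0 < y := by
    rw [hy]; have := Real.add_one_lt_exp (x := 2 * u) (by positivity); linarith
  have hy1 : Real.exp (2 * u) = 1 + y := by rw [hy]; ring
  have hpos : ∀ f : ℝ, 0 < 1 + y * Real.sin f ^ 2 := fun f => by positivity
  obtain ⟨φ, hφ⟩ : ∃ φ : ℝ → ℝ, φ = fun f => u - (1 / 2) * Real.log (1 + y * Real.sin f ^ 2) :=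
    ⟨_, rfl⟩
  have hexp : ∀ f, Real.exp (2 * (u - φ f)) = 1 + y * Real.sin f ^ 2 := by
    intro f
    rw [hφ]
    simp only
    rw [show 2 * (u - (u - 1 / 2 * Real.log (1 + y * Real.sin f ^ 2))) =
      Real.log (1 + y * Real.sin f ^ 2) by ring, Real.exp_log (hpos f)]
  have hder : ∀ f, HasDerivAt φ (-(y * Real.sin f * Real.cos f / (1 + y * Real.sin f ^ 2))) f := by
    intro f
    rw [hφ]
    have h1 : HasDerivAt (fun f => 1 + y * Real.sin f ^ 2)
        (y * (2 * Real.sin f * Real.cos f)) f := by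
      refine ((((Real.hasDerivAt_sin f).fun_pow 2).const_mul y).const_add 1).congr_deriv ?_
      norm_num
    have h2 := ((h1.log (hpos f).ne').const_mul (1/2)).const_sub u
    refine h2.congr_deriv ?_
    have := (hpos f).ne'
    field_simp
  have hanti : StrictAntiOn φ (Icc 0 (Real.pi / 2)) := by
    refine strictAntiOn_of_deriv_neg (convex_Icc _ _) ?_ ?_
    · exact fun f _ => (hder f).continuousAt.continuousWithinAt
    · intro f hf
      rw [interior_Icc] at hf
      rw [(hder f).deriv]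
      have h1 : 0 < Real.sin f := Real.sin_pos_of_pos_of_lt_pi hf.1 (by linarith [hf.2, Real.pi_pos])
      have h2 : 0 < Real.cos f := Real.cos_pos_of_mem_Ioo ⟨by linarith [hf.1, Real.pi_pos], hf.2⟩
      have := hpos f
      have : 0 < y * Real.sin f * Real.cos f / (1 + y * Real.sin f ^ 2) := by positivity
      linarith
  have hφ0 : φ 0 = u := by rw [hφ]; simp
  have hφ1 : φ (Real.pi / 2) = 0 := by
    rw [hφ]; simp only [Real.sin_pi_div_two]
    rw [one_pow, mul_one, ← hy1, Real.log_exp]; ring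
  have hpi : (0:ℝ) < Real.pi / 2 := by positivity
  have himg : φ '' (Ioo 0 (Real.pi / 2)) = Ioo 0 u := by
    apply Subset.antisymm
    · rintro _ ⟨f, hf, rfl⟩
      constructor
      · rw [← hφ1]
        exact hanti ⟨hf.1.le, hf.2.le⟩ (right_mem_Icc.2 hpi.le) hf.2
      · rw [← hφ0]
        exact hanti (left_mem_Icc.2 hpi.le) ⟨hf.1.le, hf.2.le⟩ hf.1
    · have := intermediate_value_Ioo' hpi.le
        (f := φ) (fun f _ => (hder f).continuousAt.continuousWithinAt)
      rw [hφ0, hφ1] at this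
      exact this
  rw [← himg, integral_image_eq_integral_abs_deriv_smul measurableSet_Ioo
    (fun f _ => (hder f).hasDerivWithinAt)
    (hanti.injOn.mono Ioo_subset_Icc_self)]
  unfold VV GV
  rw [← hy, intervalIntegral.integral_of_le hpi.le, integral_Ioc_eq_integral_Ioo,
    ← integral_smul]
  refine setIntegral_congr_fun measurableSet_Ioo ?_
  intro f hf
  simp only
  have h1 : 0 < Real.sin f := Real.sin_pos_of_pos_of_lt_pi hf.1 (by linarith [hf.2, Real.pi_pos])
  have h2 : 0 < Real.cos f := Real.cos_pos_of_mem_Ioo ⟨by linarith [hf.1, Real.pi_pos], hf.2⟩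
  have h3 := hpos f
  have hcs : Real.cos f ^ 2 = 1 - Real.sin f ^ 2 := by
    have := Real.sin_sq_add_cos_sq f; linarith
  rw [hexp f]
  rw [show (1 + y * Real.sin f ^ 2 - 1 : ℝ) = y * Real.sin f ^ 2 by ring]
  have hs1 : Real.sqrt (y * Real.sin f ^ 2) = Real.sqrt y * Real.sin f := by
    rw [Real.sqrt_mul hy0.le, Real.sqrt_sq h1.le]
  have hE : Real.exp (-2 * φ f) = (1 + y * Real.sin f ^ 2) * Real.exp (-u) ^ 2 := by
    rw [← hexp f, ← Real.exp_nat_mul, ← Real.exp_add]
    congr 1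
    push_cast
    ring
  have hu2 : Real.exp (-u) ^ 2 * (1 + y) = 1 := by
    rw [← hy1, ← Real.exp_nat_mul, ← Real.exp_add]
    push_cast
    rw [show (2 * -u + 2 * u : ℝ) = 0 by ring, Real.exp_zero]
  have hs2 : Real.sqrt (1 - Real.exp (-2 * φ f)) = Real.sqrt y * Real.cos f * Real.exp (-u) := by
    rw [hE]
    have : 1 - (1 + y * Real.sin f ^ 2) * Real.exp (-u) ^ 2 =
        y * (Real.cos f * Real.exp (-u)) ^ 2 := by
      rw [mul_pow, hcs]
      nlinarith [hu2]
    rw [this, Real.sqrt_mul hy0.le, Real.sqrt_sq (by positivity)]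
    ring
  have hsy : 0 < Real.sqrt y := Real.sqrt_pos.2 hy0
  have hak : ak (φ f) = 2 * (1 + y * Real.sin f ^ 2) * Real.exp (-u) /
      (Real.sqrt y * Real.cos f) := by
    unfold ak
    rw [hs2, hE]
    have := Real.exp_pos (-u)
    field_simp
  rw [hak, hs1]
  have hab : |-(y * Real.sin f * Real.cos f / (1 + y * Real.sin f ^ 2))| =
      y * Real.sin f * Real.cos f / (1 + y * Real.sin f ^ 2) := by
    rw [abs_neg, abs_of_pos (by positivity)]
  rw [hab, Complex.real_smul, ← mul_assoc, ← Complex.ofReal_mul, smul_smul, ← Complex.ofReal_mul,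
    smul_eq_mul, ← Complex.ofReal_mul]
  congr 2
  have hy2 : Real.sqrt y ^ 2 = y := Real.sq_sqrt hy0.le
  field_simp

theorem ak_cont : ContinuousOn ak (Ioi 0) := by
  intro η hη
  have hη' : (0:ℝ) < η := hη
  have h1 : Real.exp (-2 * η) < 1 := by rw [Real.exp_lt_one_iff]; linarith
  unfold ak
  refine ContinuousAt.continuousWithinAt ?_
  refine ContinuousAt.div (by fun_prop) (by fun_prop) ?_
  exact (Real.sqrt_pos.2 (by linarith)).ne'

theorem ak_nonneg (η : ℝ) : 0 ≤ ak η := by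
  unfold ak
  positivity

/-- the kernel of the double integral -/
def Phi (h : ℝ → ℝ) (t η s : ℝ) : ℂ :=
  if η + s < t then (ak η : ℂ) * (((h s * Real.sqrt (Real.exp (2 * (t - η - s)) - 1) : ℝ) : ℂ) *
    lam (HH h s) ((Real.exp (2 * (t - η - s)) - 1 : ℝ) : ℂ)) else 0

theorem exp_sub_nonneg {x : ℝ} (hx : 0 ≤ x) : 0 ≤ Real.exp (2 * x) - 1 := by
  have := Real.add_one_le_exp (2 * x)
  linarith

theorem Phi_int (hA : S_AK) (hC : S_CTS) (hB : S_BD) {h : ℝ → ℝ} (hh : okh h) {t : ℝ}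
    (ht : 0 < t) : Integrable (Function.uncurry (Phi h t))
      ((volume.restrict (Ioo 0 t)).prod (volume.restrict (Ioo 0 t))) := by
  have hprod : (volume.restrict (Ioo (0:ℝ) t)).prod (volume.restrict (Ioo (0:ℝ) t)) =
      (volume : Measure (ℝ × ℝ)).restrict (Ioo 0 t ×ˢ Ioo 0 t) := by
    rw [Measure.prod_restrict]; rfl
  -- the dominating function
  have hg : Integrable (fun z : ℝ × ℝ => ak z.1 * ((1 / 200) * Real.sqrt (Real.exp (2 * t)) * 16))
      ((volume.restrict (Ioo 0 t)).prod (volume.restrict (Ioo 0 t))) := by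
    have h1 : Integrable ak (volume.restrict (Ioo 0 t)) :=
      hA.1.mono_set (fun x hx => hx.1)
    have h2 : Integrable (fun _ : ℝ => ((1 / 200) * Real.sqrt (Real.exp (2 * t)) * 16 : ℝ))
      (volume.restrict (Ioo 0 t)) := integrable_const _
    exact h1.mul_prod h2
  refine hg.mono' ?_ ?_
  · -- measurability
    rw [hprod]
    have hT : MeasurableSet {z : ℝ × ℝ | 0 < z.1 ∧ 0 < z.2 ∧ z.1 + z.2 < t} := by
      refine (measurableSet_lt measurable_const measurable_fst).inter
        ((measurableSet_lt measurable_const measurable_snd).inter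
        (measurableSet_lt (measurable_fst.add measurable_snd) measurable_const))
    have hind : (Function.uncurry (Phi h t)) =ᵐ[(volume : Measure (ℝ × ℝ)).restrict
        (Ioo 0 t ×ˢ Ioo 0 t)] ({z : ℝ × ℝ | 0 < z.1 ∧ 0 < z.2 ∧ z.1 + z.2 < t}.indicator
          (fun z : ℝ × ℝ => (ak z.1 : ℂ) *
          (((h z.2 * Real.sqrt (Real.exp (2 * (t - z.1 - z.2)) - 1) : ℝ) : ℂ) *
            lam (HH h z.2) ((Real.exp (2 * (t - z.1 - z.2)) - 1 : ℝ) : ℂ)))) := by
      filter_upwards [ae_restrict_mem (measurableSet_Ioo.prod measurableSet_Ioo)] with z hz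
      obtain ⟨h1, h2⟩ := hz
      unfold Function.uncurry Phi
      by_cases h3 : z.1 + z.2 < t
      · rw [if_pos h3, indicator_of_mem]
        exact ⟨h1.1, h2.1, h3⟩
      · rw [if_neg h3, indicator_of_notMem]
        exact fun h4 => h3 h4.2.2
    refine AEStronglyMeasurable.congr ?_ hind.symm
    rw [aestronglyMeasurable_indicator_iff hT, Measure.restrict_restrict hT]
    refine ContinuousOn.aestronglyMeasurable ?_
      (hT.inter (measurableSet_Ioo.prod measurableSet_Ioo))
    refine ContinuousOn.mono ?_ inter_subset_left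
    have c1 : ContinuousOn (fun z : ℝ × ℝ => (ak z.1 : ℂ))
        {z : ℝ × ℝ | 0 < z.1 ∧ 0 < z.2 ∧ z.1 + z.2 < t} := by
      refine Complex.continuous_ofReal.comp_continuousOn ?_
      exact ak_cont.comp continuousOn_fst (fun z hz => hz.1)
    have c2 : ContinuousOn (fun z : ℝ × ℝ =>
        ((h z.2 * Real.sqrt (Real.exp (2 * (t - z.1 - z.2)) - 1) : ℝ) : ℂ))
        {z : ℝ × ℝ | 0 < z.1 ∧ 0 < z.2 ∧ z.1 + z.2 < t} := by
      refine Complex.continuous_ofReal.comp_continuousOn ?_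
      refine Continuous.continuousOn ?_
      have := hh.1
      fun_prop
    have c3 : ContinuousOn (fun z : ℝ × ℝ =>
        lam (HH h z.2) ((Real.exp (2 * (t - z.1 - z.2)) - 1 : ℝ) : ℂ))
        {z : ℝ × ℝ | 0 < z.1 ∧ 0 < z.2 ∧ z.1 + z.2 < t} := by
      have c4 : ContinuousOn (fun z : ℝ × ℝ => (z.2, Real.exp (2 * (t - z.1 - z.2)) - 1))
          {z : ℝ × ℝ | 0 < z.1 ∧ 0 < z.2 ∧ z.1 + z.2 < t} :=
        Continuous.continuousOn (by fun_prop)
      exact (hC h hh).2.2.1.comp c4 (fun z hz => ⟨mem_univ _,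
        exp_sub_nonneg (by linarith [hz.2.2])⟩)
    exact c1.mul (c2.mul c3)
  · rw [hprod]
    filter_upwards [ae_restrict_mem (measurableSet_Ioo.prod measurableSet_Ioo)] with z hz
    obtain ⟨h1, h2⟩ := hz
    have hak := ak_nonneg z.1
    unfold Function.uncurry Phi
    by_cases h3 : z.1 + z.2 < t
    · rw [if_pos h3, norm_mul, norm_mul, Complex.norm_real, Complex.norm_real, Real.norm_eq_abs,
        Real.norm_eq_abs, abs_of_nonneg hak, abs_mul, abs_of_nonneg (Real.sqrt_nonneg _)]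
      refine mul_le_mul_of_nonneg_left ?_ hak
      have h4 : |h z.2| ≤ 1 / 200 := hh.2.2 _
      have h5 : Real.sqrt (Real.exp (2 * (t - z.1 - z.2)) - 1) ≤ Real.sqrt (Real.exp (2 * t)) := by
        refine Real.sqrt_le_sqrt ?_
        have : Real.exp (2 * (t - z.1 - z.2)) ≤ Real.exp (2 * t) :=
          Real.exp_le_exp.2 (by linarith [h1.1, h2.1])
        linarith
      have h6 := lam_bound hB hh hC z.2 (exp_sub_nonneg (by linarith : 0 ≤ t - z.1 - z.2))
      have h7 := Real.sqrt_nonneg (Real.exp (2 * (t - z.1 - z.2)) - 1)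
      have h8 := abs_nonneg (h z.2)
      exact mul_le_mul (mul_le_mul h4 h5 h7 (by norm_num)) h6 (norm_nonneg _) (by positivity)
    · rw [if_neg h3, norm_zero]
      positivity

theorem th (hA : S_AK) (hT : S_TR) (hC : S_CTS) (hB : S_BD) (hcg : S_CONGR) : S_JV := by
  intro h hh t ht
  rcases ht.eq_or_lt with ht0 | htpos
  · -- t = 0
    subst ht0
    rw [intervalIntegral.integral_same]
    unfold JJ
    refine integral_eq_zero_of_ae ?_
    filter_upwards [ae_restrict_mem measurableSet_Ioi] with η hη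
    have hη' : (0:ℝ) < η := hη
    rw [TT_neg hT hcg hC hh (by linarith : 0 - η ≤ 0), sub_self, mul_zero]
    rfl
  · have s1 : JJ (fun r => TT (HH h r) - (Real.pi : ℂ)) t =
        ∫ η in Ioo 0 t, (ak η : ℂ) * (TT (HH h (t - η)) - (Real.pi : ℂ)) := by
      unfold JJ
      refine (setIntegral_eq_of_subset_of_forall_sdiff_eq_zero measurableSet_Ioi
        (fun x hx => hx.1) ?_)
      intro η hη
      have h1 : (0:ℝ) < η := hη.1
      have h2 : t ≤ η := by
        by_contra h3
        exact hη.2 ⟨h1, not_le.1 h3⟩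
      simp only
      rw [TT_neg hT hcg hC hh (by linarith : t - η ≤ 0), sub_self, mul_zero]
    have s2 : ∫ η in Ioo 0 t, (ak η : ℂ) * (TT (HH h (t - η)) - (Real.pi : ℂ)) =
        ∫ η in Ioo 0 t, ∫ s in Ioo 0 t, Phi h t η s := by
      refine setIntegral_congr_fun measurableSet_Ioo ?_
      intro η hη
      simp only
      rw [hT h hh (t - η) (by linarith [hη.2]), add_sub_cancel_left,
        intervalIntegral.integral_of_le (by linarith [hη.2]), integral_Ioc_eq_integral_Ioo,
        ← integral_const_mul]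
      have h1 : ∀ s ∈ Ioo 0 (t - η), (ak η : ℂ) *
          (((h s * Real.sqrt (Real.exp (2 * (t - η - s)) - 1) : ℝ) : ℂ) *
            lam (HH h s) ((Real.exp (2 * (t - η - s)) - 1 : ℝ) : ℂ)) = Phi h t η s := by
        intro s hs
        unfold Phi
        rw [if_pos (by linarith [hs.2])]
      rw [setIntegral_congr_fun measurableSet_Ioo h1]
      symm
      refine (setIntegral_eq_of_subset_of_forall_sdiff_eq_zero measurableSet_Ioo ?_ ?_)
      · exact Ioo_subset_Ioo_right (by linarith [hη.1])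
      · intro s hs
        unfold Phi
        rw [if_neg]
        intro h3
        exact hs.2 ⟨hs.1.1, by linarith⟩
    have s3 : ∫ η in Ioo 0 t, ∫ s in Ioo 0 t, Phi h t η s =
        ∫ s in Ioo 0 t, ∫ η in Ioo 0 t, Phi h t η s :=
      integral_integral_swap (Phi_int hA hC hB hh htpos)
    rw [s1, s2, s3, intervalIntegral.integral_of_le ht, integral_Ioc_eq_integral_Ioo]
    refine setIntegral_congr_fun measurableSet_Ioo ?_
    intro s hs
    simp only
    have hu : 0 < t - s := by linarith [hs.2]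
    rw [← subst (HH h s) hu, ← integral_const_mul]
    have h1 : ∀ η ∈ Ioo 0 (t - s), Phi h t η s = ((h s : ℝ) : ℂ) *
        (((ak η * Real.sqrt (Real.exp (2 * (t - s - η)) - 1) : ℝ) : ℂ) *
          lam (HH h s) ((Real.exp (2 * (t - s - η)) - 1 : ℝ) : ℂ)) := by
      intro η hη
      unfold Phi
      rw [if_pos (by linarith [hη.2]), show t - η - s = t - s - η by ring]
      push_cast
      ring
    rw [← setIntegral_congr_fun measurableSet_Ioo h1]
    refine (setIntegral_eq_of_subset_of_forall_sdiff_eq_zero measurableSet_Ioo ?_ ?_)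
    · exact Ioo_subset_Ioo_right (by linarith [hs.1])
    · intro η hη
      unfold Phi
      rw [if_neg]
      intro h3
      exact hη.2 ⟨hη.1.1, by linarith⟩

end Pool.Agent.W396.UN.JV
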